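import Pool.Agent.helper93.CR.SpecB

/-!
# Row `cr:GYW`: the leaf set in cells
-/

set_option autoImplicit false

open scoped MatrixGroups ContDiff Topology UpperHalfPlane ComplexConjugate
open UpperHalfPlane MeasureTheory Filter Set

namespace Pool.Agent.CR

open Pool.Agent.RS
open Pool.Agent.MS (bq CW)
open Pool.Agent.EN (XG MG mkX mkM fl pr)
open Pool.Agent.HF (px fb bad)

lemma GYW_pow (c C2 k m m2 : ℕ) (hm2 : m2 = ⌊(m : ℝ) / Real.log 2⌋₊) (hc : c ≤ C2 * k) (hk : (k : ℝ) ≤ Real.exp (5 / 8 * m))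
    (h8 : 8 * (C2 : ℝ) ^ 4 ≤ Real.exp (m / 2)) : c ^ 4 ≤ 2 ^ (3 * m2) := by
  have hL : 0 < Real.log 2 := Real.log_pos (by norm_num)
  have h1 : (m : ℝ) / Real.log 2 < m2 + 1 := by
    rw [hm2]; exact Nat.lt_floor_add_one _
  have h2 : (m : ℝ) < (m2 + 1) * Real.log 2 := by
    rw [div_lt_iff₀ hL] at h1
    exact h1
  have e2 : Real.exp (3 * (m : ℝ)) ≤ 8 * (2 : ℝ) ^ (3 * m2) := by
    have e3 : (8 : ℝ) * 2 ^ (3 * m2) = Real.exp ((3 * m2 + 3 : ℕ) * Real.log 2) := by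
      rw [Real.exp_nat_mul, Real.exp_log (by norm_num), pow_add]
      norm_num
      ring
    rw [e3]
    apply Real.exp_le_exp.mpr
    push_cast
    nlinarith
  have e4 : ((c : ℝ)) ^ 4 ≤ (C2 : ℝ) ^ 4 * Real.exp (5 / 2 * m) := by
    have a1 : (c : ℝ) ≤ C2 * Real.exp (5 / 8 * m) := by
      have : (c : ℝ) ≤ C2 * k := by exact_mod_cast hc
      exact this.trans (mul_le_mul_of_nonneg_left hk (by positivity))
    calc (c : ℝ) ^ 4 ≤ (C2 * Real.exp (5 / 8 * m)) ^ 4 := pow_le_pow_left₀ (by positivity) a1 4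
      _ = (C2 : ℝ) ^ 4 * Real.exp (5 / 2 * m) := by
        rw [mul_pow, ← Real.exp_nat_mul]
        congr 2
        push_cast
        ring
  have e5 : 8 * (c : ℝ) ^ 4 ≤ 8 * (2 : ℝ) ^ (3 * m2) := by
    calc 8 * (c : ℝ) ^ 4 ≤ 8 * ((C2 : ℝ) ^ 4 * Real.exp (5 / 2 * m)) := mul_le_mul_of_nonneg_left e4 (by norm_num)
      _ = (8 * (C2 : ℝ) ^ 4) * Real.exp (5 / 2 * m) := by ring
      _ ≤ Real.exp (m / 2) * Real.exp (5 / 2 * m) := mul_le_mul_of_nonneg_right h8 (Real.exp_pos _).le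
      _ = Real.exp (3 * m) := by rw [← Real.exp_add]; congr 1; ring
      _ ≤ _ := e2
  have e6 : (c : ℝ) ^ 4 ≤ (2 : ℝ) ^ (3 * m2) := by linarith
  exact_mod_cast e6

theorem GYW_proof (h1 : GTW_stmt) (h2 : HF.GPR_stmt) (h3 : HF.GCL_stmt) (h4 : HF.GPO_stmt) : GYW_stmt := by
  classical
  intro Γ hΓ
  obtain ⟨a1, C, ha1, ha1', hC⟩ := h3 Γ hΓ
  obtain ⟨a2, C2, ha2, ha2', hP⟩ := h4 Γ hΓ
  refine ⟨min (min a1 a2 / 20) (1 / 1000), C, 16 * C2 ^ 4 + 1, lt_min (div_pos (lt_min ha1 ha2) (by norm_num)) (by norm_num), min_le_right _ _, ?_⟩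
  intro W a n m N A Am g hW ha haa hm hn hN1 hN2 hAm hA
  have ha20 : 20 * a ≤ min a1 a2 := by
    have := haa.trans (min_le_left _ _)
    rw [le_div_iff₀ (by norm_num)] at this
    linarith
  have ha1000 : a ≤ 1 / 1000 := haa.trans (min_le_right _ _)
  have hm1 : 1 ≤ m := by omega
  have h8 : 8 * (C2 : ℝ) ^ 4 ≤ Real.exp ((m : ℝ) / 2) := by
    have : ((16 * C2 ^ 4 + 1 : ℕ) : ℝ) ≤ m := by exact_mod_cast hm
    push_cast at this
    have e := Real.add_one_le_exp ((m : ℝ) / 2)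
    linarith
  let Q : ℕ → ℝ → Prop := fun u v => 0 ≤ v ∧ v ≤ 1 ∧ (u : ℝ) / 2 ^ N ≤ v ∧ v ≤ ((u : ℝ) + 1) / 2 ^ N ∧ fb Γ (16 * a) n A (g * lM v)
  let v : ℕ → ℝ := fun u => if h : ∃ w, Q u w then h.choose else 0
  have hv : ∀ u, (∃ w, Q u w) → Q u (v u) := by
    intro u hu
    have : v u = hu.choose := dif_pos hu
    rw [this]
    exact hu.choose_spec
  let Y : Finset ℕ := (Finset.range (2 ^ N)).filter (fun u => ∃ w, Q u w)
  have hY : ∀ u ∈ Y, u < 2 ^ N ∧ Q u (v u) := by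
    intro u hu
    rw [Finset.mem_filter, Finset.mem_range] at hu
    exact ⟨hu.1, hv u hu.2⟩
  have hpow : (0 : ℝ) < 2 ^ N := by positivity
  refine ⟨Y, fun u j => fb Γ (20 * a) m Am (g * lM (v u) * aM (⌊(j : ℝ) * Real.log 2⌋₊ : ℝ)), fun u hu => (hY u hu).1, ?_, ?_, ?_, ?_⟩
  · refine hC (16 * a) n N A g Y (by positivity) ?_ hN2 ?_
    · have := min_le_left a1 a2
      linarith
    · intro u hu
      obtain ⟨-, q1, q2, q3, q4, q5⟩ := hY u hu
      exact ⟨v u, q1, q2, q3, q4, q5⟩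
  · intro w hw0 hw1 hw
    by_cases hlt : w < 1
    · refine ⟨⌊w * 2 ^ N⌋₊, ?_, ?_, ?_⟩
      · have hwn : 0 ≤ w * 2 ^ N := by positivity
        have f1 := Nat.floor_le hwn
        have f2 := Nat.lt_floor_add_one (w * 2 ^ N)
        rw [Finset.mem_filter, Finset.mem_range]
        refine ⟨?_, w, hw0, hw1, ?_, ?_, hw⟩
        · rw [Nat.floor_lt hwn]
          push_cast
          nlinarith
        · rw [div_le_iff₀ hpow]; exact f1
        · rw [le_div_iff₀ hpow]; exact f2.le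
      · rw [div_le_iff₀ hpow]
        exact Nat.floor_le (by positivity)
      · rw [le_div_iff₀ hpow]
        exact (Nat.lt_floor_add_one (w * 2 ^ N)).le
    · have hw' : w = 1 := le_antisymm hw1 (not_lt.mp hlt)
      have hc : ((2 ^ N - 1 : ℕ) : ℝ) = 2 ^ N - 1 := by
        rw [Nat.cast_sub (Nat.one_le_two_pow)]
        push_cast
        ring
      have g1 : ((2 ^ N - 1 : ℕ) : ℝ) / 2 ^ N ≤ w := by
        rw [hc, hw', div_le_one hpow]; linarith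
      have g2 : w ≤ (((2 ^ N - 1 : ℕ) : ℝ) + 1) / 2 ^ N := by
        rw [hc, hw', le_div_iff₀ hpow]; linarith
      refine ⟨2 ^ N - 1, ?_, g1, g2⟩
      rw [Finset.mem_filter, Finset.mem_range]
      have : 0 < 2 ^ N := by positivity
      exact ⟨by omega, w, hw0, hw1, g1, g2, hw⟩
  · intro u hu
    obtain ⟨-, q1, q2, q3, q4, y, hy, γ, hγ⟩ := hY u hu
    have hI := hA y hy
    have hT := h1 W n m N ((Finset.range n).filter (fun i : ℕ => ¬ fb Γ a m Am (y * aM (i : ℝ)))) hW hm1 hn hN1 hN2 hI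
    refine le_trans (Nat.mul_le_mul_left (4 * W) (Finset.card_le_card ?_)) hT
    intro j hj
    rw [Finset.mem_filter] at hj ⊢
    refine ⟨hj.1, ?_⟩
    by_contra hcon
    rw [not_or] at hcon
    obtain ⟨c1, c2⟩ := hcon
    apply hj.2
    have c3 : ⌊(j : ℝ) * Real.log 2⌋₊ + m ≤ n := not_lt.mp c2
    have c4 : fb Γ a m Am (y * aM ((⌊(j : ℝ) * Real.log 2⌋₊ : ℕ) : ℝ)) := by
      by_contra hne
      apply c1
      rw [Finset.mem_filter, Finset.mem_range]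
      exact ⟨by omega, hne⟩
    obtain ⟨y', hy', γ', hγ'⟩ := c4
    have := h2 a n m ⌊(j : ℝ) * Real.log 2⌋₊ y y' γ γ' (g * lM (v u)) ha (by linarith) c3 hγ hγ'
    refine ⟨y', hy', γ' * γ, ?_⟩
    have e : ((γ' * γ : Γ) : SL(2, ℝ)) = (γ' : SL(2, ℝ)) * (γ : SL(2, ℝ)) := rfl
    rw [e]
    exact this
  · intro j p hj
    refine GYW_pow _ C2 Am.card m ⌊(m : ℝ) / Real.log 2⌋₊ rfl ?_ hAm h8
    refine hP (20 * a) m N j p Am g _ v (by positivity) (ha20.trans (min_le_right _ _)) hj ?_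
    intro u hu
    rw [Finset.mem_filter] at hu
    obtain ⟨hu1, hu2, hu3⟩ := hu
    obtain ⟨-, q1, q2, q3, q4, q5⟩ := hY u hu1
    exact ⟨q3, q4, hu3, hu2⟩

end Pool.Agent.CR
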